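import Pool.Agent.Helper5.FRC.Defs

set_option autoImplicit false

namespace Pool.Agent.Helper57.FRC.PATH

open Finset

variable {V : Type} [DecidableEq V]

theorem even_moved (D : Finset V) (a : V → V) (ha : ∀ x ∈ D, a x ∈ D ∧ a (a x) = x) :
    Even (D.filter fun x => a x ≠ x).card := by
  have h : ∏ x ∈ D.filter (fun x => a x ≠ x), (-1 : ℤ) = 1 := by
    refine Finset.prod_involution (fun x _ => a x) ?_ ?_ ?_ ?_
    · intro x _; norm_num
    · intro x hx _
      exact (Finset.mem_filter.1 hx).2
    · intro x hx
      have h1 := (Finset.mem_filter.1 hx)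
      refine Finset.mem_filter.2 ⟨(ha x h1.1).1, ?_⟩
      rw [(ha x h1.1).2]
      exact fun h => h1.2 h.symm
    · intro x hx
      exact (ha x (Finset.mem_filter.1 hx).1).2
  rw [Finset.prod_const] at h
  exact neg_one_pow_eq_one_iff_even (by norm_num) |>.1 h

theorem par (D : Finset V) (a : V → V) (ha : ∀ x ∈ D, a x ∈ D ∧ a (a x) = x) :
    (D.filter fun x => a x = x).card % 2 = D.card % 2 := by
  have h1 : Even (D.filter fun x => ¬ a x = x).card := by
    simpa only [ne_eq] using even_moved D a ha
  have h2 := Finset.card_filter_add_card_filter_not (s := D) (fun x => a x = x)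
  rw [Nat.even_iff] at h1
  omega

def Hyp (D : Finset V) (a b : V → V) : Prop :=
  (∀ x ∈ D, a x ∈ D ∧ a (a x) = x) ∧ (∀ x ∈ D, b x ∈ D ∧ b (b x) = x) ∧
  (∀ E ⊆ D, E.Nonempty → (∀ x ∈ E, a x ∈ E ∧ b x ∈ E) → E = D)

theorem step (D : Finset V) (a b : V → V) (h : Hyp D a b) (x : V) (hx : x ∈ D) (hax : a x = x)
    (ih : ∀ (D' : Finset V) (b' : V → V), D'.card < D.card → Hyp D' a b' →
      (D'.filter fun x => a x = x).card + (D'.filter fun x => b' x = x).card ≤ 2) :
    (D.filter fun x => a x = x).card + (D.filter fun x => b x = x).card ≤ 2 := by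
  obtain ⟨ha, hb, hm⟩ := h
  by_cases hbx : b x = x
  · have hD : {x} = D := by
      refine hm {x} (by simpa using hx) (by simp) ?_
      intro z hz
      rw [Finset.mem_singleton] at hz
      subst hz
      rw [hax, hbx]
      simp
    rw [← hD]
    have h1 : ∀ P : V → Prop, ∀ [DecidablePred P], (({x} : Finset V).filter P).card ≤ 1 := by
      intro P _
      exact (Finset.card_filter_le _ _).trans (by simp)
    have := h1 (fun x => a x = x)
    have := h1 (fun x => b x = x)
    omega
  · obtain ⟨y, hy⟩ : ∃ y, y = b x := ⟨_, rfl⟩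
    have hyD : y ∈ D := by rw [hy]; exact (hb x hx).1
    have hby : b y = x := by rw [hy]; exact (hb x hx).2
    have hyx : y ≠ x := by rw [hy]; exact hbx
    obtain ⟨b', hb'⟩ : ∃ b' : V → V, b' = Function.update b y y := ⟨_, rfl⟩
    have hb'y : b' y = y := by rw [hb']; simp
    have hb'n : ∀ z, z ≠ y → b' z = b z := by
      intro z hz; rw [hb']; exact Function.update_of_ne hz _ _
    have H : Hyp (D.erase x) a b' := by
      refine ⟨?_, ?_, ?_⟩
      · intro z hz
        obtain ⟨hzx, hzD⟩ := Finset.mem_erase.1 hz
        refine ⟨Finset.mem_erase.2 ⟨?_, (ha z hzD).1⟩, (ha z hzD).2⟩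
        intro h
        apply hzx
        rw [← (ha z hzD).2, h, hax]
      · intro z hz
        obtain ⟨hzx, hzD⟩ := Finset.mem_erase.1 hz
        by_cases hzy : z = y
        · subst hzy
          rw [hb'y, hb'y]
          exact ⟨hz, rfl⟩
        · rw [hb'n z hzy]
          have h1 : b z ≠ y := by
            intro h
            apply hzx
            rw [← (hb z hzD).2, h, hby]
          have h2 : b z ≠ x := by
            intro h
            apply hzy
            rw [← (hb z hzD).2, h, hy]
          rw [hb'n _ h1]
          exact ⟨Finset.mem_erase.2 ⟨h2, (hb z hzD).1⟩, (hb z hzD).2⟩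
      · intro E hE hne hcl
        have hxE : x ∉ E := fun h => (Finset.mem_erase.1 (hE h)).1 rfl
        have hED : E ⊆ D := hE.trans (Finset.erase_subset _ _)
        by_cases hyE : y ∈ E
        · have h1 : insert x E = D := by
            refine hm _ (Finset.insert_subset hx hED) (Finset.insert_nonempty _ _) ?_
            intro z hz
            rcases Finset.mem_insert.1 hz with rfl | hz
            · rw [hax, ← hy]
              exact ⟨Finset.mem_insert_self _ _, Finset.mem_insert_of_mem hyE⟩
            · refine ⟨Finset.mem_insert_of_mem (hcl z hz).1, ?_⟩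
              by_cases hzy : z = y
              · rw [hzy, hby]; exact Finset.mem_insert_self _ _
              · rw [← hb'n z hzy]
                exact Finset.mem_insert_of_mem (hcl z hz).2
          rw [← h1, Finset.erase_insert hxE]
        · exfalso
          have h1 : E = D := by
            refine hm _ hED hne ?_
            intro z hz
            refine ⟨(hcl z hz).1, ?_⟩
            have hzy : z ≠ y := fun h => hyE (h ▸ hz)
            rw [← hb'n z hzy]
            exact (hcl z hz).2
          exact hxE (h1 ▸ hx)
    have h0 := ih (D.erase x) b' (Finset.card_erase_lt_of_mem hx) H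
    have c1 : (D.filter fun x => a x = x) = insert x ((D.erase x).filter fun x => a x = x) := by
      ext z
      simp only [Finset.mem_filter, Finset.mem_insert, Finset.mem_erase]
      constructor
      · rintro ⟨h1, h2⟩
        by_cases hz : z = x
        · exact Or.inl hz
        · exact Or.inr ⟨⟨hz, h1⟩, h2⟩
      · rintro (rfl | ⟨⟨-, h1⟩, h2⟩)
        · exact ⟨hx, hax⟩
        · exact ⟨h1, h2⟩
    have c2 : ((D.erase x).filter fun x => b' x = x) = insert y (D.filter fun x => b x = x) := by
      ext z
      simp only [Finset.mem_filter, Finset.mem_insert, Finset.mem_erase]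
      constructor
      · rintro ⟨⟨h1, h2⟩, h3⟩
        by_cases hz : z = y
        · exact Or.inl hz
        · rw [hb'n z hz] at h3
          exact Or.inr ⟨h2, h3⟩
      · rintro (rfl | ⟨h1, h2⟩)
        · exact ⟨⟨hyx, hyD⟩, hb'y⟩
        · have hzx : z ≠ x := by rintro rfl; exact hbx h2
          have hzy : z ≠ y := by
            rintro rfl
            exact hyx (h2.symm.trans hby)
          rw [hb'n z hzy]
          exact ⟨⟨hzx, h1⟩, h2⟩
    have n1 : x ∉ (D.erase x).filter fun x => a x = x := by simp
    have n2 : y ∉ D.filter fun x => b x = x := by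
      simp only [Finset.mem_filter, not_and]
      intro _ h
      exact hyx (h.symm.trans hby)
    rw [c2, Finset.card_insert_of_notMem n2] at h0
    rw [c1, Finset.card_insert_of_notMem n1]
    omega

theorem le_two : ∀ (k : ℕ) (D : Finset V) (a b : V → V), D.card = k → Hyp D a b →
    (D.filter fun x => a x = x).card + (D.filter fun x => b x = x).card ≤ 2 := by
  intro k
  induction k using Nat.strong_induction_on with
  | _ k IH =>
    intro D a b hk h
    have hsw : Hyp D b a := ⟨h.2.1, h.1, fun E hE hne hcl => h.2.2 E hE hne fun x hx =>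
      ⟨(hcl x hx).2, (hcl x hx).1⟩⟩
    by_cases h1 : ∃ x ∈ D, a x = x
    · obtain ⟨x, hx, hax⟩ := h1
      exact step D a b h x hx hax fun D' b' hD' h' => IH _ (hk ▸ hD') D' a b' rfl h'
    · by_cases h2 : ∃ x ∈ D, b x = x
      · obtain ⟨x, hx, hbx⟩ := h2
        rw [add_comm]
        exact step D b a hsw x hx hbx fun D' b' hD' h' => IH _ (hk ▸ hD') D' b b' rfl h'
      · have e1 : (D.filter fun x => a x = x) = ∅ := by
          rw [Finset.filter_eq_empty_iff]
          intro x hx hax
          exact h1 ⟨x, hx, hax⟩
        have e2 : (D.filter fun x => b x = x) = ∅ := by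
          rw [Finset.filter_eq_empty_iff]
          intro x hx hax
          exact h2 ⟨x, hx, hax⟩
        rw [e1, e2]
        simp

theorem t : Pool.Agent.Helper5.FRC.PathStmt := by
  intro V _ _ D a b ha hb hm
  have h1 := le_two D.card D a b rfl ⟨ha, hb, hm⟩
  have h2 := par D a ha
  have h3 := par D b hb
  omega

end Pool.Agent.Helper57.FRC.PATH
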